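import Pool.Agent.V8H85.C177.C0
import Pool.Agent.V8H85.C177.C1
import Pool.Agent.V8H85.C177.C2
import Pool.Agent.V8H85.C177.C3
import Pool.Agent.V8H85.C177.C4
import Pool.Agent.V8H85.C177.C5
import Pool.Agent.V8H85.C177.C6
import Pool.Agent.V8H85.C177.C7
import Pool.Agent.V8H85.C177.C8
import Pool.Agent.V8H85.C177.C9
import Pool.Agent.V8H85.C177.C10
import Pool.Agent.V8H85.C177.C11
import Pool.Agent.V8H85.C177.C12
import Pool.Agent.V8H85.C177.C13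
import Pool.Agent.V8H85.C177.FacD

/-! the list of the facets agrees with the final state -/

set_option autoImplicit false
set_option maxRecDepth 1000000

namespace Pool.Agent.V8H85.C177

open Pool.Agent.V8H85.GC

theorem u0 : Upto t16 0 [] := upto_zero _

theorem u1 : Upto t16 1500 ([] ++ Lc0) := upto_step u0 c0

theorem u2 : Upto t16 3000 (([] ++ Lc0) ++ Lc1) := upto_step u1 c1

theorem u3 : Upto t16 4500 ((([] ++ Lc0) ++ Lc1) ++ Lc2) := upto_step u2 c2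

theorem u4 : Upto t16 6000 (((([] ++ Lc0) ++ Lc1) ++ Lc2) ++ Lc3) := upto_step u3 c3

theorem u5 : Upto t16 7500 ((((([] ++ Lc0) ++ Lc1) ++ Lc2) ++ Lc3) ++ Lc4) := upto_step u4 c4

theorem u6 : Upto t16 9000 (((((([] ++ Lc0) ++ Lc1) ++ Lc2) ++ Lc3) ++ Lc4) ++ Lc5) := upto_step u5 c5

theorem u7 : Upto t16 10500 ((((((([] ++ Lc0) ++ Lc1) ++ Lc2) ++ Lc3) ++ Lc4) ++ Lc5) ++ Lc6) := upto_step u6 c6

theorem u8 : Upto t16 12000 (((((((([] ++ Lc0) ++ Lc1) ++ Lc2) ++ Lc3) ++ Lc4) ++ Lc5) ++ Lc6) ++ Lc7) := upto_step u7 c7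

theorem u9 : Upto t16 13500 ((((((((([] ++ Lc0) ++ Lc1) ++ Lc2) ++ Lc3) ++ Lc4) ++ Lc5) ++ Lc6) ++ Lc7) ++ Lc8) := upto_step u8 c8

theorem u10 : Upto t16 15000 (((((((((([] ++ Lc0) ++ Lc1) ++ Lc2) ++ Lc3) ++ Lc4) ++ Lc5) ++ Lc6) ++ Lc7) ++ Lc8) ++ Lc9) := upto_step u9 c9

theorem u11 : Upto t16 16500 ((((((((((([] ++ Lc0) ++ Lc1) ++ Lc2) ++ Lc3) ++ Lc4) ++ Lc5) ++ Lc6) ++ Lc7) ++ Lc8) ++ Lc9) ++ Lc10) := upto_step u10 c10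

theorem u12 : Upto t16 18000 (((((((((((([] ++ Lc0) ++ Lc1) ++ Lc2) ++ Lc3) ++ Lc4) ++ Lc5) ++ Lc6) ++ Lc7) ++ Lc8) ++ Lc9) ++ Lc10) ++ Lc11) := upto_step u11 c11

theorem u13 : Upto t16 19500 ((((((((((((([] ++ Lc0) ++ Lc1) ++ Lc2) ++ Lc3) ++ Lc4) ++ Lc5) ++ Lc6) ++ Lc7) ++ Lc8) ++ Lc9) ++ Lc10) ++ Lc11) ++ Lc12) := upto_step u12 c12

theorem u14 : Upto t16 21000 (((((((((((((([] ++ Lc0) ++ Lc1) ++ Lc2) ++ Lc3) ++ Lc4) ++ Lc5) ++ Lc6) ++ Lc7) ++ Lc8) ++ Lc9) ++ Lc10) ++ Lc11) ++ Lc12) ++ Lc13) := upto_step u13 c13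

theorem eqs : leqs [Lc0, Lc1, Lc2, Lc3, Lc4, Lc5, Lc6, Lc7, Lc8, Lc9, Lc10, Lc11, Lc12, Lc13] Lf = true := by decide +kernel

theorem eqL : Lf = (((((((((((((([] ++ Lc0) ++ Lc1) ++ Lc2) ++ Lc3) ++ Lc4) ++ Lc5) ++ Lc6) ++ Lc7) ++ Lc8) ++ Lc9) ++ Lc10) ++ Lc11) ++ Lc12) ++ Lc13) := by
  rw [leqs_ok _ _ eqs]
  simp only [List.flatten_cons, List.flatten_nil, List.append_nil, List.nil_append, List.append_assoc]

theorem topT : t16.top 21000 = true := by decide +kernel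

theorem lenL : Nat.ble 1 (len Lf) = true := by decide +kernel

end Pool.Agent.V8H85.C177
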