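import Pool.Agent.V8H85.C177.D0
import Pool.Agent.V8H85.GC.Fin2

/-! the start of the certificate -/

set_option autoImplicit false
set_option maxRecDepth 1000000

namespace Pool.Agent.V8H85.C177

open Pool.Agent.V8H85.GC

def W : List Nat := [3, 4, 10, 22, 25, 27, 30, 70]

def fs0 : List Nat := [0x71e1b19160a0403, 0x6461b19160a0403, 0x5461e19160a0403, 0x4461e1b160a0403, 0x3461e1b190a0403, 0x2461e1b19160403, 0x1461e1b19160a03, 0x461e1b19160a04]

def L0 : List Nat := [0x4a400418, 0x40000000000a400418, 0x400000000042400418, 0x400000000048400418, 0x40000000004a000418, 0x40000000004a400018, 0x40000000004a400408, 0x40000000004a400410]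

theorem start : Good 7 t0 U0 := by
  refine start_of (m := 256) (W := W) (fs := fs0) (L := L0) ?_ ?_ ?_ ?_
  · decide +kernel
  · decide +kernel
  · decide +kernel
  · decide +kernel

end Pool.Agent.V8H85.C177
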