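import Pool.Agent.V8H85.C177.S0
import Pool.Agent.V8H85.C177.S1
import Pool.Agent.V8H85.C177.S2
import Pool.Agent.V8H85.C177.S3
import Pool.Agent.V8H85.C177.S4
import Pool.Agent.V8H85.C177.S5
import Pool.Agent.V8H85.C177.S6
import Pool.Agent.V8H85.C177.S7
import Pool.Agent.V8H85.C177.S8
import Pool.Agent.V8H85.C177.S9
import Pool.Agent.V8H85.C177.S10
import Pool.Agent.V8H85.C177.S11
import Pool.Agent.V8H85.C177.S12
import Pool.Agent.V8H85.C177.S13
import Pool.Agent.V8H85.C177.S14
import Pool.Agent.V8H85.C177.S15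
import Pool.Agent.V8H85.C177.St
import Pool.Agent.V8H85.C177.FacC

/-! the certificate: a PL sphere -/

set_option autoImplicit false
set_option maxRecDepth 1000000

namespace Pool.Agent.V8H85.C177

open Pool.Agent.V8H85.GC

theorem good1 : Good 7 t1 U1 := seg_ok s0 start
theorem good2 : Good 7 t2 U2 := seg_ok s1 good1
theorem good3 : Good 7 t3 U3 := seg_ok s2 good2
theorem good4 : Good 7 t4 U4 := seg_ok s3 good3
theorem good5 : Good 7 t5 U5 := seg_ok s4 good4
theorem good6 : Good 7 t6 U6 := seg_ok s5 good5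
theorem good7 : Good 7 t7 U7 := seg_ok s6 good6
theorem good8 : Good 7 t8 U8 := seg_ok s7 good7
theorem good9 : Good 7 t9 U9 := seg_ok s8 good8
theorem good10 : Good 7 t10 U10 := seg_ok s9 good9
theorem good11 : Good 7 t11 U11 := seg_ok s10 good10
theorem good12 : Good 7 t12 U12 := seg_ok s11 good11
theorem good13 : Good 7 t13 U13 := seg_ok s12 good12
theorem good14 : Good 7 t14 U14 := seg_ok s13 good13
theorem good15 : Good 7 t15 U15 := seg_ok s14 good14
theorem good16 : Good 7 t16 U16 := seg_ok s15 good15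

/-- **The complex with the facets `Lf` is a PL sphere of dimension six.** -/
theorem plc : Pool.Agent.V8H27.GC.PLC 7 (Pool.Agent.V8H50.GC.faces Lf) := plc_of_upto good16 u14 topT lenL eqL

end Pool.Agent.V8H85.C177
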